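import Pool.Agent.N321.KT.Defs

/-!
Project KT (helper321): leaf CYC, by helper505. A matrix with a cyclic vector has at least `n`
homogeneous solutions of degree `m`.
-/

set_option autoImplicit false

open Matrix Finset

namespace Pool.Agent.N505.KT.CYC

theorem t : Pool.Agent.N321.KT.S_CYC := by
  intro ι _ _ m A u hm hli
  classical
  -- the cyclic basis
  have hcard : Fintype.card (Fin (Fintype.card ι)) = Module.finrank ℝ (ι → ℝ) := by
    rw [Fintype.card_fin, Module.finrank_fintype_fun_eq_card]
  have hspan := hli.span_eq_top_of_card_eq_finrank' hcard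
  let b : Module.Basis (Fin (Fintype.card ι)) ℝ (ι → ℝ) := Module.Basis.mk hli hspan.ge
  have hb : ∀ k, b k = (A ^ (k : ℕ)).mulVec u := fun k => Module.Basis.mk_apply hli hspan.ge k
  obtain ⟨N, hNb⟩ : ∃ N : (ι → ℝ) →ₗ[ℝ] Matrix ι ι ℝ, ∀ k, N (b k) = A ^ (k : ℕ) :=
    ⟨b.constr ℝ (fun k => A ^ (k : ℕ)), fun k => b.constr_basis ℝ _ k⟩
  have hNu : ∀ x, (N x) *ᵥ u = x := by
    have h : (LinearMap.id : (ι → ℝ) →ₗ[ℝ] (ι → ℝ)) =
        ((Matrix.mulVecBilin ℝ ℝ).flip u : Matrix ι ι ℝ →ₗ[ℝ] (ι → ℝ)).comp N := by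
      refine b.ext fun k => ?_
      rw [LinearMap.comp_apply, hNb, LinearMap.id_apply, hb]
      rfl
    intro x
    exact (LinearMap.congr_fun h x).symm
  have hAN : ∀ x, A * N x = N x * A := by
    have h : (LinearMap.mulLeft ℝ A).comp N = (LinearMap.mulRight ℝ A).comp N := by
      refine b.ext fun k => ?_
      rw [LinearMap.comp_apply, LinearMap.comp_apply, hNb, LinearMap.mulLeft_apply,
        LinearMap.mulRight_apply, ← pow_succ, ← pow_succ']
    intro x
    exact LinearMap.congr_fun h x
  have hNN : ∀ x y, N x * N y = N y * N x := by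
    intro x y
    have h : (LinearMap.mulRight ℝ (N y)).comp N = (LinearMap.mulLeft ℝ (N y)).comp N := by
      refine b.ext fun k => ?_
      rw [LinearMap.comp_apply, LinearMap.comp_apply, hNb, LinearMap.mulLeft_apply,
        LinearMap.mulRight_apply]
      exact (Commute.pow_left (show Commute A (N y) from hAN y) k).eq
    exact LinearMap.congr_fun h x
  have huniq : ∀ X Y : Matrix ι ι ℝ, A * X = X * A → A * Y = Y * A → X *ᵥ u = Y *ᵥ u → X = Y := by
    intro X Y hX hY h
    apply (Matrix.toLin' (R := ℝ)).injective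
    refine b.ext fun k => ?_
    rw [Matrix.toLin'_apply, Matrix.toLin'_apply, hb, Matrix.mulVec_mulVec, Matrix.mulVec_mulVec]
    have h1 : X * A ^ (k : ℕ) = A ^ (k : ℕ) * X :=
      (Commute.pow_left (show Commute A X from hX) k).eq.symm
    have h2 : Y * A ^ (k : ℕ) = A ^ (k : ℕ) * Y :=
      (Commute.pow_left (show Commute A Y from hY) k).eq.symm
    rw [h1, h2, ← Matrix.mulVec_mulVec, ← Matrix.mulVec_mulVec, h]
  have hN1 : N u = 1 := by
    refine huniq _ _ (hAN u) (by rw [Matrix.mul_one, Matrix.one_mul]) ?_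
    rw [hNu, Matrix.one_mulVec]
  have hNA : ∀ x, N (A *ᵥ x) = A * N x := by
    intro x
    refine huniq _ _ (hAN _) ?_ ?_
    · rw [Matrix.mul_assoc, ← hAN x]
    · rw [hNu, ← Matrix.mulVec_mulVec, hNu]
  -- the products
  obtain ⟨P, hP0, hPc⟩ : ∃ P : List ι → Matrix ι ι ℝ, P = (fun w =>
      (w.map (fun i => N (Pi.single i 1))).prod) ∧
      ∀ i w, P (i :: w) = N (Pi.single i 1) * P w :=
    ⟨_, rfl, fun i w => by simp⟩
  have hPperm : ∀ w w' : List ι, w.Perm w' → P w = P w' := by
    intro w w' h
    rw [hP0]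
    refine (h.map _).prod_eq' ?_
    rw [List.pairwise_map]
    exact List.pairwise_of_forall fun i j => hNN _ _
  have hsum : ∀ (c : ι → ℝ) (a : ι → ℝ) (w : List ι),
      ∑ s, c s * (a ⬝ᵥ (P (s :: w) *ᵥ u)) = a ⬝ᵥ ((N c * P w) *ᵥ u) := by
    intro c a w
    have h1 : N c = ∑ s, c s • N (Pi.single s 1) := by
      conv_lhs => rw [pi_eq_sum_univ' c]
      rw [map_sum]
      refine Finset.sum_congr rfl fun s _ => ?_
      rw [map_smul]
    rw [h1, Finset.sum_mul, Matrix.sum_mulVec, dotProduct_sum]
    refine Finset.sum_congr rfl fun s _ => ?_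
    rw [Matrix.smul_mul, Matrix.smul_mulVec, dotProduct_smul, smul_eq_mul, hPc]
  refine ⟨{ toFun := fun a w => if w.length = m then a ⬝ᵥ (P w *ᵥ u) else 0
            map_add' := ?_
            map_smul' := ?_ }, ?_, ?_⟩
  · intro a a'
    funext w
    by_cases h : w.length = m
    · simp [h, add_dotProduct]
    · simp [h]
  · intro c a
    funext w
    by_cases h : w.length = m
    · simp [h, smul_dotProduct]
    · simp [h]
  · rw [injective_iff_map_eq_zero]
    intro a ha
    have hC : ∀ w : List ι, w.length = m → a ⬝ᵥ (P w *ᵥ u) = 0 := by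
      intro w hw
      have h1 := congrFun ha w
      simpa [hw] using h1
    have hstep : ∀ k : ℕ, (∀ w : List ι, w.length = 1 + k → a ⬝ᵥ (P w *ᵥ u) = 0) →
        ∀ w : List ι, w.length = 1 → a ⬝ᵥ (P w *ᵥ u) = 0 := by
      intro k
      induction k with
      | zero => exact fun h => h
      | succ k ih =>
        intro h
        refine ih fun w hw => ?_
        have h1 := hsum u a w
        rw [hN1, Matrix.one_mul] at h1
        rw [← h1]
        refine Finset.sum_eq_zero fun s _ => ?_
        rw [h (s :: w) (by simp [hw]; ring), mul_zero]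
    have h1 := hstep (m - 1) (by
      have : 1 + (m - 1) = m := by omega
      rw [this]
      exact hC)
    funext i
    have h2 := h1 [i] rfl
    have h3 : P [i] = N (Pi.single i 1) := by rw [hP0]; simp
    rw [h3, hNu] at h2
    simpa using h2
  · intro a
    refine ⟨?_, ?_, ?_⟩
    · intro w w' h
      have h1 := hPperm w w' h
      have h2 := h.length_eq
      simp only [LinearMap.coe_mk, AddHom.coe_mk, h1, h2]
    · intro w hw
      by_contra h
      exact hw (by simp [h])
    · intro w i j hw
      have key : ∀ i j : ι, ∑ s, A s j * (a ⬝ᵥ (P (s :: i :: w) *ᵥ u)) =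
          a ⬝ᵥ ((A * (N (Pi.single j 1) * N (Pi.single i 1)) * P w) *ᵥ u) := by
        intro i j
        have h1 := hsum (fun s => A s j) a (i :: w)
        rw [h1]
        have h2 : (fun s => A s j) = A *ᵥ Pi.single j 1 := by
          rw [Matrix.mulVec_single_one]; rfl
        rw [h2, hNA, hPc]
        simp only [Matrix.mul_assoc]
      have hl : ∀ s i : ι, (s :: i :: w).length = m := by
        intro s i
        simp only [List.length_cons]
        omega
      simp only [LinearMap.coe_mk, AddHom.coe_mk, hl, if_true]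
      rw [key i j, key j i, hNN (Pi.single j 1) (Pi.single i 1)]

end Pool.Agent.N505.KT.CYC
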